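import Mathlib

set_option linter.unusedSimpArgs false

namespace Pool.Agent.Results.MP_800496_gt.KernelLarger

open Polynomial

/-- The four elementary pieces of a sliced link diagram. `pos` is the crossing of two upward
strands in which the strand from bottom left to top right is the over strand. -/
inductive Piece where
  | cup
  | cap
  | pos
  | neg

/-- number of strands entering a piece from below -/
def Piece.low : Piece → ℕ
  | .cup => 0
  | _ => 2

/-- number of strands leaving a piece at the top -/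
def Piece.high : Piece → ℕ
  | .cap => 0
  | _ => 2

/-- `(k, p)` is the level consisting of `k` vertical strands, then the piece `p`, then further
vertical strands. `width n w` is the number of strands above the word `w` (read from bottom to top)
when `n` strands enter it from below, and `none` if some piece does not fit. -/
def width : ℕ → List (ℕ × Piece) → Option ℕ
  | n, [] => some n
  | n, (k, p) :: w => if k + p.low ≤ n then width (n - p.low + p.high) w else none

/-- Sliced link diagrams: words without strands at the bottom and at the top. -/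
def Diagram := {w : List (ℕ × Piece) // width 0 w = some 0}

/-- The local moves for framed unoriented links (blackboard framing). -/
inductive Move : List (ℕ × Piece) → List (ℕ × Piece) → Prop
  | exchange (k l : ℕ) (p q : Piece) : k + p.high ≤ l →
      Move [(k, p), (l, q)] [(l - p.high + p.low, q), (k, p)]
  | zigzagR (k : ℕ) : Move [(k, .cup), (k + 1, .cap)] []
  | zigzagL (k : ℕ) : Move [(k + 1, .cup), (k, .cap)] []
  | cupSlidePos (k : ℕ) : Move [(k, .cup), (k + 1, .pos)] [(k + 1, .cup), (k, .neg)]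
  | cupSlideNeg (k : ℕ) : Move [(k, .cup), (k + 1, .neg)] [(k + 1, .cup), (k, .pos)]
  | capSlidePos (k : ℕ) : Move [(k + 1, .pos), (k, .cap)] [(k, .neg), (k + 1, .cap)]
  | capSlideNeg (k : ℕ) : Move [(k + 1, .neg), (k, .cap)] [(k, .pos), (k + 1, .cap)]
  | curlPos (k : ℕ) : Move [(k + 1, .cup), (k, .pos), (k + 1, .cap)]
      [(k, .cup), (k + 1, .pos), (k, .cap)]
  | curlNeg (k : ℕ) : Move [(k + 1, .cup), (k, .neg), (k + 1, .cap)]
      [(k, .cup), (k + 1, .neg), (k, .cap)]
  | r2PosNeg (k : ℕ) : Move [(k, .pos), (k, .neg)] []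
  | r2NegPos (k : ℕ) : Move [(k, .neg), (k, .pos)] []
  | r3 (k : ℕ) : Move [(k, .pos), (k + 1, .pos), (k, .pos)] [(k + 1, .pos), (k, .pos), (k + 1, .pos)]

/-- Two diagrams are related if one local move, applied somewhere inside, changes the first
into the second. -/
def Step (D E : Diagram) : Prop :=
  ∃ A B X Y : List (ℕ × Piece), Move X Y ∧ D.1 = A ++ X ++ B ∧ E.1 = A ++ Y ++ B

/-- Isotopy classes of framed unoriented links in the 3-sphere: diagrams modulo the equivalence
relation generated by the local moves. -/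
def FramedLink := Quot Step

section Skein

variable (R : Type) [CommRing R]

open Classical in
/-- The basis element of the free module on framed links given by the word `w`
(zero if `w` is not a link diagram). -/
noncomputable def link (w : List (ℕ × Piece)) : FramedLink →₀ R :=
  if h : width 0 w = some 0 then Finsupp.single (Quot.mk Step ⟨w, h⟩) 1 else 0

/-- The submodule generated by the (4,infinity) skein relations and the framing relations. -/
noncomputable def relations (a b0 b3 bi : Rˣ) (b1 b2 : R) : Submodule R (FramedLink →₀ R) :=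
  Submodule.span R
    ({x | ∃ (A B : List (ℕ × Piece)) (n k : ℕ), width 0 A = some n ∧ width n B = some 0 ∧
        k + 2 ≤ n ∧
        x = (b0 : R) • link R (A ++ B)
          + b1 • link R (A ++ [(k, .pos)] ++ B)
          + b2 • link R (A ++ [(k, .pos), (k, .pos)] ++ B)
          + (b3 : R) • link R (A ++ [(k, .pos), (k, .pos), (k, .pos)] ++ B)
          + (bi : R) • link R (A ++ [(k, .cap), (k, .cup)] ++ B)} ∪
     {x | ∃ (A B : List (ℕ × Piece)) (n k : ℕ), width 0 A = some n ∧ width n B = some 0 ∧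
        k + 1 ≤ n ∧
        x = link R (A ++ [(k + 1, .cup), (k, .pos), (k + 1, .cap)] ++ B)
          - (a : R) • link R (A ++ B)})

/-- The (4,infinity) skein module of the 3-sphere. -/
abbrev SkeinModule (a b0 b3 bi : Rˣ) (b1 b2 : R) : Type :=
  (FramedLink →₀ R) ⧸ relations R a b0 b3 bi b1 b2

/-- The standard diagram of the trivial link with `i` components. -/
def trivialLink (i : ℕ) : List (ℕ × Piece) :=
  (List.replicate i [((0 : ℕ), Piece.cup), (0, Piece.cap)]).flatten

/-- The linear map sending `t ^ i` to the class of the trivial link with `i` components. -/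
noncomputable def trivialMap (a b0 b3 bi : Rˣ) (b1 b2 : R) :
    R[X] →ₗ[R] SkeinModule R a b0 b3 bi b1 b2 :=
  (Polynomial.basisMonomials R).constr R
    fun i => (relations R a b0 b3 bi b1 b2).mkQ (link R (trivialLink i))

/-- the polynomial `p₁(t)` -/
noncomputable def p1 (a b0 b3 bi : Rˣ) (b1 b2 : R) : R[X] :=
  C ((a⁻¹ : Rˣ) ^ 3 * b3 + (a⁻¹ : Rˣ) ^ 2 * b2 + (a⁻¹ : Rˣ) * b1 + b0 : R) + C (bi : R) * X

/-- the polynomial `p₂(t)` -/
noncomputable def p2 (a b0 b3 bi : Rˣ) (b1 b2 : R) : R[X] :=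
  C (b0 * b1 - b2 * b3 : R) * X
    + C (((a⁻¹ : Rˣ) * b0 ^ 2 - a * b3 ^ 2) + (a * b0 * b2 - (a⁻¹ : Rˣ) * b1 * b3)
      + bi * (a * b0 - a ^ 2 * b3) : R)

end Skein

/-! ### Elementary lemmas -/

theorem width_append (n : ℕ) (A B : List (ℕ × Piece)) :
    width n (A ++ B) = (width n A).bind fun m => width m B := by
  induction A generalizing n with
  | nil => rfl
  | cons s A ih =>
    obtain ⟨k, p⟩ := s
    simp only [List.cons_append, width]
    split_ifs with h
    · exact ih _
    · rfl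

section Module

variable {R : Type} [CommRing R] (a b0 b3 bi : Rˣ) (b1 b2 : R)

/-- class of a word in the skein module -/
noncomputable def c (w : List (ℕ × Piece)) : SkeinModule R a b0 b3 bi b1 b2 :=
  (relations R a b0 b3 bi b1 b2).mkQ (link R w)

variable {a b0 b3 bi b1 b2}

theorem c_step {A B X Y : List (ℕ × Piece)} (hm : Move X Y)
    (h1 : width 0 (A ++ X ++ B) = some 0) (h2 : width 0 (A ++ Y ++ B) = some 0) :
    c a b0 b3 bi b1 b2 (A ++ X ++ B) = c a b0 b3 bi b1 b2 (A ++ Y ++ B) := by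
  unfold c link
  rw [dif_pos h1, dif_pos h2]
  have : (Quot.mk Step ⟨A ++ X ++ B, h1⟩ : FramedLink) = Quot.mk Step ⟨A ++ Y ++ B, h2⟩ :=
    Quot.sound ⟨A, B, X, Y, hm, rfl, rfl⟩
  rw [this]

/-- A move may be applied to a part of a word that starts a diagram. -/
theorem c_move {A X Y : List (ℕ × Piece)} (hm : Move X Y) {n m : ℕ} {B : List (ℕ × Piece)}
    (hA : width 0 A = some n) (hX : width n X = some m) (hY : width n Y = some m)
    (hB : width m B = some 0) :
    c a b0 b3 bi b1 b2 (A ++ (X ++ B)) = c a b0 b3 bi b1 b2 (A ++ (Y ++ B)) := by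
  have h1 : width 0 (A ++ X ++ B) = some 0 := by
    rw [width_append, width_append, hA]
    simp [hX, hB]
  have h2 : width 0 (A ++ Y ++ B) = some 0 := by
    rw [width_append, width_append, hA]
    simp [hY, hB]
  have := c_step (a := a) (b0 := b0) (b3 := b3) (bi := bi) (b1 := b1) (b2 := b2) hm h1 h2
  simpa [List.append_assoc] using this

theorem c_skein {A B : List (ℕ × Piece)} {n : ℕ} (k : ℕ) (hA : width 0 A = some n)
    (hB : width n B = some 0) (hk : k + 2 ≤ n) :
    (b0 : R) • c a b0 b3 bi b1 b2 (A ++ B)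
      + b1 • c a b0 b3 bi b1 b2 (A ++ ([(k, Piece.pos)] ++ B))
      + b2 • c a b0 b3 bi b1 b2 (A ++ ([(k, Piece.pos), (k, Piece.pos)] ++ B))
      + (b3 : R) • c a b0 b3 bi b1 b2 (A ++ ([(k, Piece.pos), (k, Piece.pos), (k, Piece.pos)] ++ B))
      + (bi : R) • c a b0 b3 bi b1 b2 (A ++ ([(k, Piece.cap), (k, Piece.cup)] ++ B)) = 0 := by
  unfold c
  simp only [← map_smul, ← map_add]
  rw [Submodule.mkQ_apply, Submodule.Quotient.mk_eq_zero]
  apply Submodule.subset_span
  left
  exact ⟨A, B, n, k, hA, hB, hk, by simp [List.append_assoc]⟩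

theorem c_curl {A B : List (ℕ × Piece)} {n : ℕ} (k : ℕ) (hA : width 0 A = some n)
    (hB : width n B = some 0) (hk : k + 1 ≤ n) :
    c a b0 b3 bi b1 b2 (A ++ ([(k + 1, Piece.cup), (k, Piece.pos), (k + 1, Piece.cap)] ++ B))
      = (a : R) • c a b0 b3 bi b1 b2 (A ++ B) := by
  rw [← sub_eq_zero]
  unfold c
  simp only [← map_smul, ← map_sub]
  rw [Submodule.mkQ_apply, Submodule.Quotient.mk_eq_zero]
  apply Submodule.subset_span
  right
  exact ⟨A, B, n, k, hA, hB, hk, by simp [List.append_assoc]⟩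

/-- negative crossing on top of a local minimum -/
theorem kink_cup {A B : List (ℕ × Piece)} {n : ℕ} (k : ℕ) (hA : width 0 A = some n)
    (hk : k ≤ n) (hB : width (n + 2) B = some 0) :
    c a b0 b3 bi b1 b2 (A ++ ([(k, Piece.cup), (k, Piece.neg)] ++ B))
      = (a : R) • c a b0 b3 bi b1 b2 (A ++ ([(k, Piece.cup)] ++ B)) := by
  have hA1 : width 0 (A ++ [(k, Piece.cup)]) = some (n + 2) := by
    rw [width_append, hA]; simp [width, Piece.low, Piece.high, hk]
  -- insert a zigzag
  have e1 := c_move (a := a) (b0 := b0) (b3 := b3) (bi := bi) (b1 := b1) (b2 := b2)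
    (A := A ++ [(k, Piece.cup), (k, Piece.neg)]) (Move.zigzagL (k + 1)) (n := n + 2) (m := n + 2) (B := B)
    (by rw [width_append, hA]; simp [width, Piece.low, Piece.high, hk])
    (by simp [width, Piece.low, Piece.high]; omega) (by simp [width]) hB
  have e2 := c_move (a := a) (b0 := b0) (b3 := b3) (bi := bi) (b1 := b1) (b2 := b2)
    (A := A ++ [(k, Piece.cup)]) (Move.exchange k (k + 2) Piece.neg Piece.cup (by simp [Piece.high]))
    (n := n + 2) (m := n + 4) (B := [(k + 1, Piece.cap)] ++ B) hA1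
    (by simp [width, Piece.low, Piece.high]; omega)
    (by simp [width, Piece.low, Piece.high]; omega)
    (by simp [width, Piece.low, Piece.high, hB]; try omega)
  have e3 := c_move (a := a) (b0 := b0) (b3 := b3) (bi := bi) (b1 := b1) (b2 := b2)
    (A := A ++ [(k, Piece.cup), (k + 2, Piece.cup)]) (Move.capSlidePos k)
    (n := n + 4) (m := n + 2) (B := B)
    (by rw [width_append, hA]; simp [width, Piece.low, Piece.high, hk])
    (by simp [width, Piece.low, Piece.high]; omega)
    (by simp [width, Piece.low, Piece.high]; omega) hB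
  have e4 := c_move (a := a) (b0 := b0) (b3 := b3) (bi := bi) (b1 := b1) (b2 := b2)
    (A := A) (Move.exchange k (k + 2) Piece.cup Piece.cup (by simp [Piece.high]))
    (n := n) (m := n + 4) (B := [(k + 1, Piece.pos), (k, Piece.cap)] ++ B) hA
    (by simp [width, Piece.low, Piece.high]; omega)
    (by simp [width, Piece.low, Piece.high]; omega)
    (by simp [width, Piece.low, Piece.high, hB]; try omega)
  have e5 := c_move (a := a) (b0 := b0) (b3 := b3) (bi := bi) (b1 := b1) (b2 := b2)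
    (A := A ++ [(k, Piece.cup)]) (Move.curlPos k)
    (n := n + 2) (m := n + 2) (B := B) hA1
    (by simp [width, Piece.low, Piece.high]; omega)
    (by simp [width, Piece.low, Piece.high]; omega) hB
  have e6 := c_curl (a := a) (b0 := b0) (b3 := b3) (bi := bi) (b1 := b1) (b2 := b2)
    (A := A ++ [(k, Piece.cup)]) (B := B) (n := n + 2) k hA1 hB (by omega)
  simp only [List.append_assoc, List.cons_append, List.nil_append, Piece.low, Piece.high,
    Nat.add_sub_cancel, Nat.add_zero] at e1 e2 e3 e4 e5 e6 ⊢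
  rw [← e1, e2, ← e3, e4, ← e5, e6]

/-- negative crossing below a local maximum -/
theorem kink_cap {A B : List (ℕ × Piece)} {n : ℕ} (k : ℕ) (hA : width 0 A = some (n + 2))
    (hk : k ≤ n) (hB : width n B = some 0) :
    c a b0 b3 bi b1 b2 (A ++ ([(k, Piece.neg), (k, Piece.cap)] ++ B))
      = (a : R) • c a b0 b3 bi b1 b2 (A ++ ([(k, Piece.cap)] ++ B)) := by
  have hB1 : width (n + 2) ([(k, Piece.cap)] ++ B) = some 0 := by
    simp [width, Piece.low, Piece.high, hB, hk]
  have e1 := c_move (a := a) (b0 := b0) (b3 := b3) (bi := bi) (b1 := b1) (b2 := b2)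
    (A := A) (Move.zigzagR (k + 1)) (n := n + 2) (m := n + 2) (B := [(k, Piece.neg), (k, Piece.cap)] ++ B)
    hA
    (by simp [width, Piece.low, Piece.high]; omega) (by simp [width])
    (by simp [width, Piece.low, Piece.high, hB, hk])
  have e2 := c_move (a := a) (b0 := b0) (b3 := b3) (bi := bi) (b1 := b1) (b2 := b2)
    (A := A ++ [(k + 1, Piece.cup)]) (Move.exchange k (k + 2) Piece.neg Piece.cap (by simp [Piece.high]))
    (n := n + 4) (m := n + 2) (B := [(k, Piece.cap)] ++ B)
    (by rw [width_append, hA]; simp [width, Piece.low, Piece.high]; omega)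
    (by simp [width, Piece.low, Piece.high]; omega)
    (by simp [width, Piece.low, Piece.high]; omega) hB1
  have e3 := c_move (a := a) (b0 := b0) (b3 := b3) (bi := bi) (b1 := b1) (b2 := b2)
    (A := A) (Move.cupSlidePos k)
    (n := n + 2) (m := n + 4) (B := [(k + 2, Piece.cap), (k, Piece.cap)] ++ B) hA
    (by simp [width, Piece.low, Piece.high]; omega)
    (by simp [width, Piece.low, Piece.high]; omega)
    (by simp [width, Piece.low, Piece.high, hB, hk])
  have e4 := c_move (a := a) (b0 := b0) (b3 := b3) (bi := bi) (b1 := b1) (b2 := b2)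
    (A := A ++ [(k, Piece.cup), (k + 1, Piece.pos)]) (Move.exchange k k Piece.cap Piece.cap (by simp [Piece.high]))
    (n := n + 4) (m := n) (B := B)
    (by rw [width_append, hA]; simp [width, Piece.low, Piece.high]; omega)
    (by simp [width, Piece.low, Piece.high]; omega)
    (by simp [width, Piece.low, Piece.high]; omega) hB
  have e5 := c_move (a := a) (b0 := b0) (b3 := b3) (bi := bi) (b1 := b1) (b2 := b2)
    (A := A) (Move.curlPos k)
    (n := n + 2) (m := n + 2) (B := [(k, Piece.cap)] ++ B) hA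
    (by simp [width, Piece.low, Piece.high]; omega)
    (by simp [width, Piece.low, Piece.high]; omega) hB1
  have e6 := c_curl (a := a) (b0 := b0) (b3 := b3) (bi := bi) (b1 := b1) (b2 := b2)
    (A := A) (B := [(k, Piece.cap)] ++ B) (n := n + 2) k hA hB1 (by omega)
  simp only [List.append_assoc, List.cons_append, List.nil_append, Piece.low, Piece.high,
    Nat.add_sub_cancel, Nat.add_zero, Nat.sub_zero] at e1 e2 e3 e4 e5 e6 ⊢
  rw [← e1, ← e2, ← e3, ← e4, ← e5, e6]

/-! ### Tangles with four end points. `Φ w` is the class of `w` closed by `B`. -/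

variable {B : List (ℕ × Piece)}

theorem nested_cups (hB : width 4 B = some 0) :
    c a b0 b3 bi b1 b2 ([(0, Piece.cup), (0, Piece.cup)] ++ B)
      = c a b0 b3 bi b1 b2 ([(0, Piece.cup), (2, Piece.cup)] ++ B) :=
  (c_move (A := []) (Move.exchange 0 2 Piece.cup Piece.cup (by simp [Piece.high])) (n := 0) (m := 4) rfl
    rfl rfl hB).symm

theorem ep_eq (hB : width 4 B = some 0) :
    c a b0 b3 bi b1 b2 ([(0, Piece.cup), (1, Piece.cup), (0, Piece.pos)] ++ B)
      = c a b0 b3 bi b1 b2 ([(0, Piece.cup), (2, Piece.cup), (1, Piece.neg)] ++ B) := by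
  have e1 := c_move (a := a) (b0 := b0) (b3 := b3) (bi := bi) (b1 := b1) (b2 := b2)
    (A := [(0, Piece.cup)]) (Move.cupSlideNeg 0) (n := 2) (m := 4) (B := B) rfl rfl rfl hB
  have e2 := nested_cups (a := a) (b0 := b0) (b3 := b3) (bi := bi) (b1 := b1) (b2 := b2)
    (B := [(1, Piece.neg)] ++ B) hB
  exact e1.symm.trans e2

theorem em_eq (hB : width 4 B = some 0) :
    c a b0 b3 bi b1 b2 ([(0, Piece.cup), (1, Piece.cup), (0, Piece.neg)] ++ B)
      = c a b0 b3 bi b1 b2 ([(0, Piece.cup), (2, Piece.cup), (1, Piece.pos)] ++ B) := by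
  have e1 := c_move (a := a) (b0 := b0) (b3 := b3) (bi := bi) (b1 := b1) (b2 := b2)
    (A := [(0, Piece.cup)]) (Move.cupSlidePos 0) (n := 2) (m := 4) (B := B) rfl rfl rfl hB
  have e2 := nested_cups (a := a) (b0 := b0) (b3 := b3) (bi := bi) (b1 := b1) (b2 := b2)
    (B := [(1, Piece.pos)] ++ B) hB
  exact e1.symm.trans e2

theorem r2_np {A : List (ℕ × Piece)} {n : ℕ} (k : ℕ) (hA : width 0 A = some n) (hk : k + 2 ≤ n)
    (hB : width n B = some 0) :
    c a b0 b3 bi b1 b2 (A ++ ([(k, Piece.neg), (k, Piece.pos)] ++ B))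
      = c a b0 b3 bi b1 b2 (A ++ B) :=
  c_move (Move.r2NegPos k) (n := n) (m := n) hA
    (by simp [width, Piece.low, Piece.high]; omega) rfl hB

theorem r2_pn {A : List (ℕ × Piece)} {n : ℕ} (k : ℕ) (hA : width 0 A = some n) (hk : k + 2 ≤ n)
    (hB : width n B = some 0) :
    c a b0 b3 bi b1 b2 (A ++ ([(k, Piece.pos), (k, Piece.neg)] ++ B))
      = c a b0 b3 bi b1 b2 (A ++ B) :=
  c_move (Move.r2PosNeg k) (n := n) (m := n) hA
    (by simp [width, Piece.low, Piece.high]; omega) rfl hB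

/-- positive crossing on top of the left of two adjacent cups -/
theorem v_pos (hB : width 4 B = some 0) :
    (a : R) • c a b0 b3 bi b1 b2 ([(0, Piece.cup), (2, Piece.cup), (0, Piece.pos)] ++ B)
      = c a b0 b3 bi b1 b2 ([(0, Piece.cup), (2, Piece.cup)] ++ B) := by
  have e1 := c_move (a := a) (b0 := b0) (b3 := b3) (bi := bi) (b1 := b1) (b2 := b2)
    (A := [(0, Piece.cup)]) (Move.exchange 0 2 Piece.pos Piece.cup (by simp [Piece.high])) (n := 2) (m := 4)
    (B := B) rfl rfl rfl hB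
  have e2 := kink_cup (a := a) (b0 := b0) (b3 := b3) (bi := bi) (b1 := b1) (b2 := b2)
    (A := []) (B := [(0, Piece.pos), (2, Piece.cup)] ++ B) (n := 0) 0 rfl (by omega)
    (by simpa [width, Piece.low, Piece.high] using hB)
  have e3 := r2_np (a := a) (b0 := b0) (b3 := b3) (bi := bi) (b1 := b1) (b2 := b2)
    (A := [(0, Piece.cup)]) (B := [(2, Piece.cup)] ++ B) (n := 2) 0 rfl (by omega)
    (by simpa [width, Piece.low, Piece.high] using hB)
  simp only [List.append_assoc, List.cons_append, List.nil_append, Piece.low, Piece.high,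
    Nat.add_sub_cancel, Nat.add_zero, Nat.zero_add, Nat.sub_zero, Nat.sub_self]
    at e1 e2 e3 ⊢
  rw [← e1, ← e2, e3]

/-- positive crossing on top of the inner one of two nested cups -/
theorem e0_pos (hB : width 4 B = some 0) :
    (a : R) • c a b0 b3 bi b1 b2 ([(0, Piece.cup), (1, Piece.cup), (1, Piece.pos)] ++ B)
      = c a b0 b3 bi b1 b2 ([(0, Piece.cup), (1, Piece.cup)] ++ B) := by
  have e2 := kink_cup (a := a) (b0 := b0) (b3 := b3) (bi := bi) (b1 := b1) (b2 := b2)
    (A := [(0, Piece.cup)]) (B := [(1, Piece.pos)] ++ B) (n := 2) 1 rfl (by omega) hB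
  have e3 := r2_np (a := a) (b0 := b0) (b3 := b3) (bi := bi) (b1 := b1) (b2 := b2)
    (A := [(0, Piece.cup), (1, Piece.cup)]) (B := B) (n := 4) 1 rfl (by omega) hB
  simp only [List.append_assoc, List.cons_append, List.nil_append] at e2 e3 ⊢
  rw [← e2, e3]

/-- The isotopy `σ_v e_2 = e_{-2}` (up to framing). -/
theorem key (hB : width 4 B = some 0) :
    (a : R) • c a b0 b3 bi b1 b2 ([(0, Piece.cup), (1, Piece.cup), (0, Piece.pos), (0, Piece.pos), (1, Piece.pos)] ++ B)
      = c a b0 b3 bi b1 b2 ([(0, Piece.cup), (1, Piece.cup), (0, Piece.neg), (0, Piece.neg)] ++ B) := by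
  have e1 := ep_eq (a := a) (b0 := b0) (b3 := b3) (bi := bi) (b1 := b1) (b2 := b2)
    (B := [(0, Piece.pos), (1, Piece.pos)] ++ B) hB
  have e2 := r2_pn (a := a) (b0 := b0) (b3 := b3) (bi := bi) (b1 := b1) (b2 := b2)
    (A := [(0, Piece.cup), (2, Piece.cup), (1, Piece.neg), (0, Piece.pos), (1, Piece.pos)]) (B := B) (n := 4) 0 rfl
    (by omega) hB
  have e3 := c_move (a := a) (b0 := b0) (b3 := b3) (bi := bi) (b1 := b1) (b2 := b2)
    (A := [(0, Piece.cup), (2, Piece.cup), (1, Piece.neg)]) (Move.r3 0) (n := 4) (m := 4)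
    (B := [(0, Piece.neg)] ++ B) rfl rfl rfl hB
  have e4 := r2_np (a := a) (b0 := b0) (b3 := b3) (bi := bi) (b1 := b1) (b2 := b2)
    (A := [(0, Piece.cup), (2, Piece.cup)]) (B := [(0, Piece.pos), (1, Piece.pos), (0, Piece.neg)] ++ B) (n := 4) 1 rfl
    (by omega) hB
  have e5 := v_pos (a := a) (b0 := b0) (b3 := b3) (bi := bi) (b1 := b1) (b2 := b2)
    (B := [(1, Piece.pos), (0, Piece.neg)] ++ B) hB
  have e6 := em_eq (a := a) (b0 := b0) (b3 := b3) (bi := bi) (b1 := b1) (b2 := b2)
    (B := [(0, Piece.neg)] ++ B) hB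
  simp only [List.append_assoc, List.cons_append, List.nil_append, Nat.zero_add]
    at e1 e2 e3 e4 e5 e6 ⊢
  rw [e1, ← e2, e3, e4, e5, e6]

/-- The skein relation, shifted by one twist. -/
theorem shift (hB : width 4 B = some 0) :
    (b0 : R) • c a b0 b3 bi b1 b2 ([(0, Piece.cup), (1, Piece.cup), (0, Piece.neg)] ++ B)
      + b1 • c a b0 b3 bi b1 b2 ([(0, Piece.cup), (1, Piece.cup)] ++ B)
      + b2 • c a b0 b3 bi b1 b2 ([(0, Piece.cup), (1, Piece.cup), (0, Piece.pos)] ++ B)
      + (b3 : R) • c a b0 b3 bi b1 b2 ([(0, Piece.cup), (1, Piece.cup), (0, Piece.pos), (0, Piece.pos)] ++ B)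
      + (bi * a : R) • c a b0 b3 bi b1 b2 ([(0, Piece.cup), (2, Piece.cup)] ++ B) = 0 := by
  have s := c_skein (a := a) (b0 := b0) (b3 := b3) (bi := bi) (b1 := b1) (b2 := b2)
    (A := [(0, Piece.cup), (1, Piece.cup), (0, Piece.neg)]) (B := B) (n := 4) 0 rfl hB (by omega)
  have e1 := r2_np (a := a) (b0 := b0) (b3 := b3) (bi := bi) (b1 := b1) (b2 := b2)
    (A := [(0, Piece.cup), (1, Piece.cup)]) (B := B) (n := 4) 0 rfl (by omega) hB
  have e2 := r2_np (a := a) (b0 := b0) (b3 := b3) (bi := bi) (b1 := b1) (b2 := b2)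
    (A := [(0, Piece.cup), (1, Piece.cup)]) (B := [(0, Piece.pos)] ++ B) (n := 4) 0 rfl (by omega) hB
  have e3 := r2_np (a := a) (b0 := b0) (b3 := b3) (bi := bi) (b1 := b1) (b2 := b2)
    (A := [(0, Piece.cup), (1, Piece.cup)]) (B := [(0, Piece.pos), (0, Piece.pos)] ++ B) (n := 4) 0 rfl
    (by omega) hB
  have e4 := kink_cap (a := a) (b0 := b0) (b3 := b3) (bi := bi) (b1 := b1) (b2 := b2)
    (A := [(0, Piece.cup), (1, Piece.cup)]) (B := [(0, Piece.cup)] ++ B) (n := 2) 0 rfl (by omega)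
    (by simpa [width, Piece.low, Piece.high] using hB)
  have e5 := c_move (a := a) (b0 := b0) (b3 := b3) (bi := bi) (b1 := b1) (b2 := b2)
    (A := [(0, Piece.cup)]) (Move.zigzagL 0) (n := 2) (m := 2) (B := [(0, Piece.cup)] ++ B) rfl rfl rfl
    (by simpa [width, Piece.low, Piece.high] using hB)
  have e6 := nested_cups (a := a) (b0 := b0) (b3 := b3) (bi := bi) (b1 := b1) (b2 := b2) hB
  simp only [List.append_assoc, List.cons_append, List.nil_append, Nat.zero_add]
    at s e1 e2 e3 e4 e5 e6 ⊢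
  rw [e1, e2, e3, e4, e5, e6, smul_smul] at s
  exact s

/-- A linear relation between the four elementary tangles, valid in every context `B`. -/
theorem rel1 (hB : width 4 B = some 0) :
    ((a : R) * b0 ^ 3 + b3 ^ 3) •
        c a b0 b3 bi b1 b2 ([(0, Piece.cup), (1, Piece.cup), (0, Piece.pos)] ++ B)
      + ((a : R) * b0 ^ 2 * b1 - a * b0 * b2 * b3 + a ^ 2 * bi * b3 ^ 2) •
        c a b0 b3 bi b1 b2 ([(0, Piece.cup), (2, Piece.cup)] ++ B)
      + ((a : R) * b0 ^ 2 * b2 + b1 * b3 ^ 2 - a ^ 2 * bi * b0 * b3) •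
        c a b0 b3 bi b1 b2 ([(0, Piece.cup), (1, Piece.cup), (0, Piece.neg)] ++ B)
      + ((a : R) ^ 2 * bi * b0 ^ 2 - b0 * b1 * b3 + b2 * b3 ^ 2) •
        c a b0 b3 bi b1 b2 ([(0, Piece.cup), (1, Piece.cup)] ++ B) = 0 := by
  -- skein relation at the vertical strands of `e_1`
  have s1 := c_skein (a := a) (b0 := b0) (b3 := b3) (bi := bi) (b1 := b1) (b2 := b2)
    (A := [(0, Piece.cup), (1, Piece.cup), (0, Piece.pos)]) (B := B) (n := 4) 1 rfl hB (by omega)
  have s1a := ep_eq (a := a) (b0 := b0) (b3 := b3) (bi := bi) (b1 := b1) (b2 := b2)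
    (B := [(1, Piece.pos)] ++ B) hB
  have s1b := ep_eq (a := a) (b0 := b0) (b3 := b3) (bi := bi) (b1 := b1) (b2 := b2)
    (B := [(1, Piece.pos), (1, Piece.pos)] ++ B) hB
  have s1c := ep_eq (a := a) (b0 := b0) (b3 := b3) (bi := bi) (b1 := b1) (b2 := b2)
    (B := [(1, Piece.pos), (1, Piece.pos), (1, Piece.pos)] ++ B) hB
  have s1a' := r2_np (a := a) (b0 := b0) (b3 := b3) (bi := bi) (b1 := b1) (b2 := b2)
    (A := [(0, Piece.cup), (2, Piece.cup)]) (B := B) (n := 4) 1 rfl (by omega) hB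
  have s1b' := r2_np (a := a) (b0 := b0) (b3 := b3) (bi := bi) (b1 := b1) (b2 := b2)
    (A := [(0, Piece.cup), (2, Piece.cup)]) (B := [(1, Piece.pos)] ++ B) (n := 4) 1 rfl
    (by omega) hB
  have s1c' := r2_np (a := a) (b0 := b0) (b3 := b3) (bi := bi) (b1 := b1) (b2 := b2)
    (A := [(0, Piece.cup), (2, Piece.cup)]) (B := [(1, Piece.pos), (1, Piece.pos)] ++ B) (n := 4) 1
    rfl (by omega) hB
  have em := em_eq (a := a) (b0 := b0) (b3 := b3) (bi := bi) (b1 := b1) (b2 := b2) hB
  have em' := em_eq (a := a) (b0 := b0) (b3 := b3) (bi := bi) (b1 := b1) (b2 := b2)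
    (B := [(1, Piece.pos)] ++ B) hB
  have s1d := c_curl (a := a) (b0 := b0) (b3 := b3) (bi := bi) (b1 := b1) (b2 := b2)
    (A := [(0, Piece.cup)]) (B := [(1, Piece.cup)] ++ B) (n := 2) 0 rfl
    (by simpa [width, Piece.low, Piece.high] using hB) (by omega)
  -- shifted relation with a vertical crossing on top
  have s2 := shift (a := a) (b0 := b0) (b3 := b3) (bi := bi) (b1 := b1) (b2 := b2)
    (B := [(1, Piece.pos)] ++ B) hB
  have s2a := e0_pos (a := a) (b0 := b0) (b3 := b3) (bi := bi) (b1 := b1) (b2 := b2) hB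
  have s2b := key (a := a) (b0 := b0) (b3 := b3) (bi := bi) (b1 := b1) (b2 := b2) hB
  -- the relation shifted by two twists
  have s3 := shift (a := a) (b0 := b0) (b3 := b3) (bi := bi) (b1 := b1) (b2 := b2)
    (B := [(0, Piece.neg)] ++ B) hB
  have s3a := r2_pn (a := a) (b0 := b0) (b3 := b3) (bi := bi) (b1 := b1) (b2 := b2)
    (A := [(0, Piece.cup), (1, Piece.cup)]) (B := B) (n := 4) 0 rfl (by omega) hB
  have s3b := r2_pn (a := a) (b0 := b0) (b3 := b3) (bi := bi) (b1 := b1) (b2 := b2)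
    (A := [(0, Piece.cup), (1, Piece.cup), (0, Piece.pos)]) (B := B) (n := 4) 0 rfl (by omega) hB
  have s3c := v_pos (a := a) (b0 := b0) (b3 := b3) (bi := bi) (b1 := b1) (b2 := b2)
    (B := [(0, Piece.neg)] ++ B) hB
  have s3d := r2_pn (a := a) (b0 := b0) (b3 := b3) (bi := bi) (b1 := b1) (b2 := b2)
    (A := [(0, Piece.cup), (2, Piece.cup)]) (B := B) (n := 4) 0 rfl (by omega) hB
  simp only [List.append_assoc, List.cons_append, List.nil_append, Nat.zero_add]
    at s1 s1a s1b s1c s1a' s1b' s1c' em em' s1d s2 s2a s2b s3 s3a s3b s3c s3d ⊢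
  rw [s1a, s1b, s1c, s1a', s1b', s1c', s1d, ← em, ← em'] at s1
  rw [s1a, s1a', ← em] at s2
  rw [s3a, s3b, ← s3c, s3d] at s3
  generalize c a b0 b3 bi b1 b2 ((0, Piece.cup) :: (1, Piece.cup) :: (0, Piece.pos) :: B) = ep
    at *
  generalize c a b0 b3 bi b1 b2 ((0, Piece.cup) :: (1, Piece.cup) :: (0, Piece.neg) :: B) = en
    at *
  generalize c a b0 b3 bi b1 b2 ((0, Piece.cup) :: (1, Piece.cup) :: B) = e0 at *
  generalize c a b0 b3 bi b1 b2 ((0, Piece.cup) :: (2, Piece.cup) :: B) = v at *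
  linear_combination (norm := module) ((a : R) * b0 ^ 2) • s1 + ((b3 : R) ^ 2) • s3 - ((a : R) * b0 * b3) • s2
    + ((b0 : R) * b1 * b3) • s2a + ((b0 : R) * b3 ^ 2) • s2b

end Module

/-- For `R = ZMod 2` and all parameters equal to `1` the trivial knot is zero in the module. -/
theorem trivial_knot_zero :
    c (R := ZMod 2) 1 1 1 1 1 1 [(0, Piece.cup), (0, Piece.cap)] = 0 := by
  have r1 := rel1 (R := ZMod 2) (a := 1) (b0 := 1) (b3 := 1) (bi := 1) (b1 := 1) (b2 := 1)
    (B := [(1, Piece.cap), (0, Piece.cap)]) rfl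
  have r2 := rel1 (R := ZMod 2) (a := 1) (b0 := 1) (b3 := 1) (bi := 1) (b1 := 1) (b2 := 1)
    (B := [(0, Piece.pos), (0, Piece.pos), (1, Piece.cap), (0, Piece.cap)]) rfl
  have s := shift (R := ZMod 2) (a := 1) (b0 := 1) (b3 := 1) (bi := 1) (b1 := 1) (b2 := 1)
    (B := [(1, Piece.cap), (0, Piece.cap)]) rfl
  have v1 := v_pos (R := ZMod 2) (a := 1) (b0 := 1) (b3 := 1) (bi := 1) (b1 := 1) (b2 := 1)
    (B := [(0, Piece.pos), (1, Piece.cap), (0, Piece.cap)]) rfl
  have v2 := v_pos (R := ZMod 2) (a := 1) (b0 := 1) (b3 := 1) (bi := 1) (b1 := 1) (b2 := 1)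
    (B := [(1, Piece.cap), (0, Piece.cap)]) rfl
  have n1 := r2_np (R := ZMod 2) (a := 1) (b0 := 1) (b3 := 1) (bi := 1) (b1 := 1) (b2 := 1)
    (A := [(0, Piece.cup), (1, Piece.cup)]) (B := [(0, Piece.pos), (1, Piece.cap), (0, Piece.cap)])
    (n := 4) 0 rfl (by omega) rfl
  have z := c_move (R := ZMod 2) (a := 1) (b0 := 1) (b3 := 1) (bi := 1) (b1 := 1) (b2 := 1)
    (A := [(0, Piece.cup)]) (Move.zigzagL 1) (n := 2) (m := 2) (B := [(0, Piece.cap)]) rfl rfl rfl
    rfl
  simp only [List.append_assoc, List.cons_append, List.nil_append, Units.val_one, one_smul,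
    one_pow, one_mul, mul_one, Nat.reduceAdd] at r1 r2 s v1 v2 n1 z
  rw [n1, v1, v2] at r2
  rw [← z]
  generalize c (R := ZMod 2) 1 1 1 1 1 1
    [(0, Piece.cup), (1, Piece.cup), (0, Piece.pos), (1, Piece.cap), (0, Piece.cap)] = ep at *
  generalize c (R := ZMod 2) 1 1 1 1 1 1
    [(0, Piece.cup), (1, Piece.cup), (0, Piece.neg), (1, Piece.cap), (0, Piece.cap)] = en at *
  generalize c (R := ZMod 2) 1 1 1 1 1 1
    [(0, Piece.cup), (1, Piece.cup), (1, Piece.cap), (0, Piece.cap)] = e0 at *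
  generalize c (R := ZMod 2) 1 1 1 1 1 1
    [(0, Piece.cup), (2, Piece.cup), (1, Piece.cap), (0, Piece.cap)] = v at *
  generalize c (R := ZMod 2) 1 1 1 1 1 1 [(0, Piece.cup), (1, Piece.cup), (0, Piece.pos),
    (0, Piece.pos), (1, Piece.cap), (0, Piece.cap)] = e2 at *
  have c0 : (1 + 1 : ZMod 2) = 0 := by decide
  have c1 : (1 - 1 + 1 : ZMod 2) = 1 := by decide
  have c2 : (0 - 1 : ZMod 2) = 1 := by decide
  rw [c0, c1, c2, zero_smul, one_smul, one_smul, one_smul] at r1 r2
  have tw : ∀ x : SkeinModule (ZMod 2) 1 1 1 1 1 1, x + x = 0 := fun x => by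
    rw [← one_smul (ZMod 2) x, ← add_smul, c0, zero_smul]
  have e : v = (0 + v + en + e0) + (0 + v + ep + e2) + (en + e0 + ep + e2 + v)
      - (v + v) - (en + en) - (e0 + e0) - (ep + ep) - (e2 + e2) := by abel
  rw [e, r1, r2, s, tw v, tw en, tw e0, tw ep, tw e2]
  simp

/-- The answer to the question is negative: it is not true that, for all commutative rings and all
parameters with `b_∞` invertible, the map `t ^ i ↦ T_i` is onto with kernel exactly the ideal
generated by `t * p₁(t)` and `t * p₂(t)`. -/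
theorem result :
    ¬ ∀ (R : Type) [CommRing R] (a b0 b3 bi : Rˣ) (b1 b2 : R),
      Function.Surjective (trivialMap R a b0 b3 bi b1 b2) ∧
      LinearMap.ker (trivialMap R a b0 b3 bi b1 b2) =
        (Ideal.span {X * p1 R a b0 b3 bi b1 b2, X * p2 R a b0 b3 bi b1 b2}).restrictScalars R := by
  intro h
  have hk := (h (ZMod 2) 1 1 1 1 1 1).2
  have hX : (X : (ZMod 2)[X]) ∈ LinearMap.ker (trivialMap (ZMod 2) 1 1 1 1 1 1) := by
    rw [LinearMap.mem_ker]
    have : (X : (ZMod 2)[X]) = (Polynomial.basisMonomials (ZMod 2)) 1 := by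
      simp [Polynomial.monomial_one_one_eq_X]
    rw [this]
    unfold trivialMap
    rw [Module.Basis.constr_basis]
    exact trivial_knot_zero
  rw [hk, Submodule.restrictScalars_mem] at hX
  have hp1 : p1 (ZMod 2) 1 1 1 1 1 1 = X := by
    unfold p1
    have : ((1 : (ZMod 2)ˣ)⁻¹ : (ZMod 2)ˣ) ^ 3 * (1 : (ZMod 2)ˣ)
      + ((1 : (ZMod 2)ˣ)⁻¹ : (ZMod 2)ˣ) ^ 2 * 1 + ((1 : (ZMod 2)ˣ)⁻¹ : (ZMod 2)ˣ) * 1
      + (1 : (ZMod 2)ˣ) = (0 : ZMod 2) := by decide
    rw [this]
    simp
  have hp2 : p2 (ZMod 2) 1 1 1 1 1 1 = 0 := by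
    unfold p2
    simp
  rw [hp1, hp2, mul_zero, Ideal.span_pair_zero, Ideal.mem_span_singleton, ← pow_two,
    Polynomial.X_pow_dvd_iff] at hX
  have := hX 1 (by omega)
  simp at this

end Pool.Agent.Results.MP_800496_gt.KernelLarger
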